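import Mathlib
set_option autoImplicit false
open MeasureTheory Set Filter Topology

namespace Pool.Agent.H5.WH

/-- Euclidean space of dimension `n` -/
abbrev E (n : ℕ) : Type := EuclideanSpace ℝ (Fin n)

/-- `∫ (1+|x|²)^α |∇u|² dx` -/
noncomputable def num (n : ℕ) (α : ℝ) (u : E n → ℝ) : ℝ :=
  ∫ x : E n, (1 + ‖x‖ ^ 2) ^ α * ‖fderiv ℝ u x‖ ^ 2

/-- `∫ (1+|x|²)^(α-1) u² dx` -/
noncomputable def den (n : ℕ) (α : ℝ) (u : E n → ℝ) : ℝ :=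
  ∫ x : E n, (1 + ‖x‖ ^ 2) ^ (α - 1) * u x ^ 2

/-- the best constant for `α > -(n-2)/2` -/
noncomputable def C (α : ℝ) (n : ℕ) : ℝ :=
  sInf {q : ℝ | ∃ u : E n → ℝ, ContDiff ℝ ((⊤ : ℕ∞) : WithTop ℕ∞) u ∧ HasCompactSupport u ∧ u ≠ 0 ∧
    q = num n α u / den n α u}

end Pool.Agent.H5.WH
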